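import Pool.Agent.X223.Dfn

/-!
A subfield of the reals with only archimedean orderings and with a definable set that is not Borel.
-/

set_option autoImplicit false

namespace Pool.Agent.X223.NB

open Cardinal Polynomial MeasureTheory

open scoped IntermediateField.algebraAdjoinAdjoin

/-- Every field ordering of the field is archimedean. -/
def OnlyArchimedeanOrderings (K : Type) [Field K] : Prop :=
  ∀ [LinearOrder K] [IsStrictOrderedRing K], Archimedean K

section base

variable {ι : Type} (x : ι → ℝ) (S : Set ι)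

open Classical in
/-- The generators. -/
noncomputable def bet (i : ι) : ℝ := if i ∈ S then x i else x i ^ 3

/-- The field of the generators. -/
noncomputable def base : Subfield ℝ := Subfield.closure (Set.range (bet x S))

theorem notMem_base (hx : AlgebraicIndependent ℚ x) {i : ι} (hi : i ∉ S) : x i ∉ base x S := by
  classical
  intro hmem
  let A := Algebra.adjoin ℚ (x '' {i}ᶜ)
  let E := IntermediateField.adjoin ℚ (x '' {i}ᶜ)
  have htr : Transcendental A (x i) := hx.transcendental_adjoin (s := {i}ᶜ) (by simp)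
  have htr' : Transcendental E (x i) := by
    intro h
    exact htr ((IsFractionRing.isAlgebraic_iff A E ℝ).2 h)
  have hle : base x S ≤ (IntermediateField.adjoin E {x i ^ 3}).toSubfield := by
    unfold base
    rw [Subfield.closure_le]
    rintro _ ⟨j, rfl⟩
    show bet x S j ∈ IntermediateField.adjoin E {x i ^ 3}
    by_cases hj : j = i
    · subst hj
      unfold bet
      rw [if_neg hi]
      exact IntermediateField.mem_adjoin_simple_self E _
    · have h1 : x j ∈ E := IntermediateField.subset_adjoin _ _ ⟨j, hj, rfl⟩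
      have h2 : x j ∈ IntermediateField.adjoin E {x i ^ 3} :=
        IntermediateField.algebraMap_mem _ (⟨x j, h1⟩ : E)
      unfold bet
      split_ifs
      · exact h2
      · exact pow_mem h2 3
  have h3 : x i ∈ IntermediateField.adjoin E {x i ^ 3} := hle hmem
  rw [IntermediateField.mem_adjoin_simple_iff] at h3
  obtain ⟨r, s, hrs⟩ := h3
  have hxi : x i ≠ 0 := by
    intro h
    apply htr'
    rw [h]
    exact isAlgebraic_zero
  have hs : aeval (x i ^ 3) s ≠ 0 := by
    intro h
    rw [h, div_zero] at hrs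
    exact hxi hrs
  have h4 : aeval (x i) (X * expand E 3 s - expand E 3 r) = 0 := by
    rw [map_sub, map_mul, aeval_X, expand_aeval, expand_aeval, sub_eq_zero]
    exact (eq_div_iff hs).1 hrs
  have h5 : X * expand E 3 s - expand E 3 r = 0 := by
    by_contra hne
    exact htr' ⟨_, hne, h4⟩
  have h6 : s = 0 := by
    ext k
    have h7 := congrArg (fun p => coeff p (k * 3 + 1)) h5
    simp only [coeff_sub, coeff_X_mul, coeff_zero] at h7
    rw [coeff_expand_mul (by norm_num), coeff_expand (by norm_num)] at h7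
    rw [if_neg (by omega), sub_zero] at h7
    rw [h7, coeff_zero]
  rw [h6, map_zero] at hs
  exact hs rfl

/-- The field `L(√a)`. -/
noncomputable def adj (L : Subfield ℝ) (a : ℝ) (ha : a ∈ L) (ha0 : 0 ≤ a) (hs : √a ∉ L) :
    Subfield ℝ where
  carrier := {z | ∃ u ∈ L, ∃ v ∈ L, z = u + v * √a}
  mul_mem' := by
    rintro _ _ ⟨u, hu, v, hv, rfl⟩ ⟨u', hu', v', hv', rfl⟩
    refine ⟨u * u' + v * v' * a, add_mem (mul_mem hu hu') (mul_mem (mul_mem hv hv') ha),
      u * v' + u' * v, add_mem (mul_mem hu hv') (mul_mem hu' hv), ?_⟩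
    have := Real.mul_self_sqrt ha0
    linear_combination (v * v') * this
  one_mem' := ⟨1, one_mem _, 0, zero_mem _, by ring⟩
  add_mem' := by
    rintro _ _ ⟨u, hu, v, hv, rfl⟩ ⟨u', hu', v', hv', rfl⟩
    exact ⟨u + u', add_mem hu hu', v + v', add_mem hv hv', by ring⟩
  zero_mem' := ⟨0, zero_mem _, 0, zero_mem _, by ring⟩
  neg_mem' := by
    rintro _ ⟨u, hu, v, hv, rfl⟩
    exact ⟨-u, neg_mem hu, -v, neg_mem hv, by ring⟩
  inv_mem' := by
    rintro _ ⟨u, hu, v, hv, rfl⟩
    by_cases hn : u ^ 2 - v ^ 2 * a = 0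
    · have hv0 : v = 0 := by
        by_contra hv0
        have h1 : a = (u / v) ^ 2 := by
          field_simp
          linarith
        apply hs
        rw [h1, Real.sqrt_sq_eq_abs]
        rcases abs_choice (u / v) with h | h
        · rw [h]
          exact div_mem hu hv
        · rw [h]
          exact neg_mem (div_mem hu hv)
      subst hv0
      have hu0 : u = 0 := by
        have : u ^ 2 = 0 := by linarith
        exact pow_eq_zero_iff (two_ne_zero) |>.1 this
      subst hu0
      exact ⟨0, zero_mem _, 0, zero_mem _, by simp⟩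
    · refine ⟨u / (u ^ 2 - v ^ 2 * a), div_mem hu (sub_mem (pow_mem hu 2) (mul_mem (pow_mem hv 2) ha)),
        -v / (u ^ 2 - v ^ 2 * a), div_mem (neg_mem hv)
          (sub_mem (pow_mem hu 2) (mul_mem (pow_mem hv 2) ha)), ?_⟩
      have hsq := Real.mul_self_sqrt ha0
      have hprod : (u + v * √a) * (u - v * √a) = u ^ 2 - v ^ 2 * a := by
        linear_combination (-v ^ 2) * hsq
      have hne : u + v * √a ≠ 0 := by
        intro h
        rw [h, zero_mul] at hprod
        exact hn hprod.symm
      rw [inv_eq_iff_eq_inv]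
      have h3 : u / (u ^ 2 - v ^ 2 * a) + -v / (u ^ 2 - v ^ 2 * a) * √a =
          (u - v * √a) / (u ^ 2 - v ^ 2 * a) := by ring
      rw [h3, inv_div, eq_div_iff]
      · exact hprod
      · intro h
        rw [h, mul_zero] at hprod
        exact hn hprod.symm

theorem mem_adj {L : Subfield ℝ} {a : ℝ} (ha : a ∈ L) (ha0 : 0 ≤ a) (hs : √a ∉ L) (z : ℝ) :
    z ∈ adj L a ha ha0 hs ↔ ∃ u ∈ L, ∃ v ∈ L, z = u + v * √a := Iff.rfl

theorem cube_notMem {L : Subfield ℝ} {a : ℝ} (ha : a ∈ L) (ha0 : 0 ≤ a) (hs : √a ∉ L) {c : ℝ}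
    (hc : c ∉ L) (hc3 : c ^ 3 ∈ L) : c ∉ adj L a ha ha0 hs := by
  rintro ⟨u, hu, v, hv, rfl⟩
  have hsq := Real.mul_self_sqrt ha0
  have h1 : (u + v * √a) ^ 3 = (u ^ 3 + 3 * u * v ^ 2 * a) + (3 * u ^ 2 * v + v ^ 3 * a) * √a := by
    linear_combination (3 * u * v ^ 2 + v ^ 3 * √a) * hsq
  have h2 : 3 * u ^ 2 * v + v ^ 3 * a = 0 := by
    by_contra hne
    apply hs
    have hA : u ^ 3 + 3 * u * v ^ 2 * a ∈ L :=
      add_mem (pow_mem hu 3) (mul_mem (mul_mem (mul_mem (by exact_mod_cast natCast_mem L 3) hu)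
        (pow_mem hv 2)) ha)
    have hB : 3 * u ^ 2 * v + v ^ 3 * a ∈ L :=
      add_mem (mul_mem (mul_mem (by exact_mod_cast natCast_mem L 3) (pow_mem hu 2)) hv)
        (mul_mem (pow_mem hv 3) ha)
    have h3 : √a = ((u + v * √a) ^ 3 - (u ^ 3 + 3 * u * v ^ 2 * a)) /
        (3 * u ^ 2 * v + v ^ 3 * a) := by
      rw [eq_div_iff hne, h1]
      ring
    rw [h3]
    exact div_mem (sub_mem hc3 hA) hB
  have h4 : v * (3 * u ^ 2 + v ^ 2 * a) = 0 := by linarith
  rcases mul_eq_zero.1 h4 with h | h
  · subst h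
    apply hc
    rw [zero_mul, add_zero]
    exact hu
  · have hu2 : 0 ≤ u ^ 2 := sq_nonneg u
    have hv2 : 0 ≤ v ^ 2 * a := mul_nonneg (sq_nonneg v) ha0
    have h5 : u ^ 2 = 0 := by linarith
    have h6 : v ^ 2 * a = 0 := by linarith
    rcases mul_eq_zero.1 h6 with h7 | h7
    · have hv0 : v = 0 := by simpa using h7
      apply hc
      rw [hv0, zero_mul, add_zero]
      exact hu
    · apply hs
      rw [h7, Real.sqrt_zero]
      exact zero_mem L

theorem exists_field (hx : AlgebraicIndependent ℚ x) : ∃ K : Subfield ℝ, base x S ≤ K ∧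
    (∀ i, i ∉ S → x i ∉ K) ∧ ∀ a ∈ K, 0 ≤ a → √a ∈ K := by
  classical
  obtain ⟨K, hK0, hK⟩ := zorn_le_nonempty₀
    {L : Subfield ℝ | base x S ≤ L ∧ ∀ i, i ∉ S → x i ∉ L} (by
      intro c hc hchain y hy
      refine ⟨sSup c, ⟨(hc hy).1.trans (le_sSup hy), ?_⟩, fun z hz => le_sSup hz⟩
      intro i hi hmem
      rw [Subfield.mem_sSup_of_directedOn ⟨y, hy⟩ hchain.directedOn] at hmem
      obtain ⟨L, hL, hiL⟩ := hmem
      exact (hc hL).2 i hi hiL) (base x S) ⟨le_rfl, fun i hi => notMem_base x S hx hi⟩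
  refine ⟨K, hK0, hK.prop.2, ?_⟩
  intro a ha ha0
  by_contra hs
  have hle : K ≤ adj K a ha ha0 hs := fun z hz => ⟨z, hz, 0, zero_mem _, by ring⟩
  have hmem : adj K a ha ha0 hs ∈ {L : Subfield ℝ | base x S ≤ L ∧ ∀ i, i ∉ S → x i ∉ L} := by
    refine ⟨hK0.trans hle, fun i hi => ?_⟩
    refine cube_notMem ha ha0 hs (hK.prop.2 i hi) (hK0 ?_)
    have : bet x S i ∈ base x S := Subfield.subset_closure ⟨i, rfl⟩
    unfold bet at this
    rwa [if_neg hi] at this
  have := hK.le_of_ge hmem hle
  exact hs (this ⟨0, zero_mem _, 1, one_mem _, by ring⟩)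

end base

theorem onlyArch' {K : Type} [Field K] (e : K →+* ℝ) (h : ∀ z, 0 < e z → ∃ y, z = y * y) :
    OnlyArchimedeanOrderings K := by
  intro o1 o2
  rw [archimedean_iff_nat_lt]
  intro z
  obtain ⟨n, hn⟩ := exists_nat_gt (e z)
  refine ⟨n, ?_⟩
  have h0 : 0 < e ((n : K) - z) := by
    rw [map_sub, map_natCast]
    exact sub_pos.2 hn
  obtain ⟨y, hy⟩ := h _ h0
  have hy0 : y ≠ 0 := by
    rintro rfl
    rw [hy, mul_zero, map_zero] at h0
    exact lt_irrefl _ h0
  have h2 : (0 : K) < y * y := mul_self_pos.2 hy0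
  rw [← hy] at h2
  exact sub_pos.1 h2

theorem onlyArch {K : Subfield ℝ} (hK : ∀ a ∈ K, 0 ≤ a → √a ∈ K) :
    OnlyArchimedeanOrderings K := by
  refine onlyArch' K.subtype fun z hz => ?_
  have hz' : 0 ≤ (z : ℝ) := le_of_lt hz
  refine ⟨⟨√(z : ℝ), hK _ z.2 hz'⟩, ?_⟩
  ext
  exact (Real.mul_self_sqrt hz').symm

/-- The set of the cubes. -/
def cubes (K : Type) [Field K] : Set K := {z | ∃ y : K, z = y * y * y}

section defn

attribute [local instance] Dfn.strR

theorem definable_cubes (K : Type) [Field K] :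
    (∅ : Set K).Definable₁ FirstOrder.Language.ring (cubes K) := by
  refine Dfn.Df.definable (L := FirstOrder.Language.ring) (M := K) (Γ := Fin 1)
    (R := fun v => ∃ y : K, v 0 = y * y * y) ?_
  refine Dfn.Df.ex (R := fun v y => v 0 = y * y * y) ?_
  exact Dfn.Df.eq (Dfn.Tm.var 0).weak ((Dfn.Tm.last.mul Dfn.Tm.last).mul Dfn.Tm.last)

end defn

theorem card_borel : #{B : Set ℝ // MeasurableSet[borel ℝ] B} ≤ 𝔠 := by
  rw [Real.borel_eq_generateFrom_Ioo_rat]
  refine MeasurableSpace.cardinal_measurableSet_le_continuum ?_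
  refine le_trans (Set.Countable.le_aleph0 ?_) aleph0_le_continuum
  exact Set.countable_iUnion fun a => Set.countable_iUnion fun b => Set.countable_iUnion fun _ =>
    Set.countable_singleton _

theorem main : ∃ K : Subfield ℝ, (∀ a ∈ K, 0 ≤ a → √a ∈ K) ∧
    ¬ MeasurableSet[borel K] (cubes K) := by
  classical
  obtain ⟨ι, x, hx⟩ := exists_isTranscendenceBasis' ℚ ℝ
  have hne : Nonempty ι := by
    rw [hx.nonempty_iff_transcendental, Algebra.transcendental_iff_not_isAlgebraic]
    intro halg
    have h1 := Algebra.IsAlgebraic.cardinalMk_le_max ℚ ℝ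
    rw [Cardinal.mk_real, Cardinal.mk_denumerable, max_self] at h1
    exact absurd h1 (not_le.2 aleph0_lt_continuum)
  have hcard : #ι = 𝔠 := by
    have h1 := hx.lift_cardinalMk_eq_max_lift
    simp only [Cardinal.lift_id, Cardinal.mk_real, Cardinal.mk_denumerable] at h1
    rcases le_total (#ι) ℵ₀ with h2 | h2
    · rw [max_eq_left h2, max_self] at h1
      exact absurd h1 aleph0_lt_continuum.ne'
    · rw [max_eq_right h2, max_eq_left h2] at h1
      exact h1.symm
  by_contra hcon
  push Not at hcon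
  choose K hK0 hK1 hK2 using fun S : Set ι => exists_field x S hx.1
  have hB : ∀ S, ∃ B : Set ℝ, MeasurableSet[borel ℝ] B ∧
      ((↑) : K S → ℝ) ⁻¹' B = cubes (K S) := by
    intro S
    have h1 := hcon (K S) (hK2 S)
    have h2 : borel (K S) = (borel ℝ).comap ((↑) : K S → ℝ) := borel_comap
    rw [h2] at h1
    exact h1
  choose B hB1 hB2 using hB
  have hinj : Function.Injective fun S => (⟨B S, hB1 S⟩ : {B : Set ℝ // MeasurableSet[borel ℝ] B}) := by
    have key : ∀ S i, i ∈ S ↔ x i ^ 3 ∈ B S := by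
      intro S i
      have hmem : bet x S i ∈ K S := hK0 S (Subfield.subset_closure ⟨i, rfl⟩)
      unfold bet at hmem
      constructor
      · intro hi
        rw [if_pos hi] at hmem
        have h1 : (⟨x i ^ 3, pow_mem hmem 3⟩ : K S) ∈ cubes (K S) := by
          refine ⟨⟨x i, hmem⟩, ?_⟩
          ext
          show x i ^ 3 = x i * x i * x i
          ring
        rw [← hB2 S] at h1
        exact h1
      · intro h
        by_contra hi
        rw [if_neg hi] at hmem
        have h1 : (⟨x i ^ 3, hmem⟩ : K S) ∈ cubes (K S) := by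
          rw [← hB2 S]
          exact h
        obtain ⟨y, hy⟩ := h1
        have h2 : x i ^ 3 = (y : ℝ) ^ 3 := by
          have := congrArg (fun z : K S => (z : ℝ)) hy
          simp only at this
          rw [this]
          show (y : ℝ) * y * y = (y : ℝ) ^ 3
          ring
        have h3 : x i = y := by
          have hodd : Odd 3 := by decide
          exact (Odd.strictMono_pow (R := ℝ) hodd).injective h2
        apply hK1 S i hi
        rw [h3]
        exact y.2
    intro S T hST
    have hST' : B S = B T := congrArg Subtype.val hST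
    ext i
    rw [key S i, key T i, hST']
  have h1 := Cardinal.mk_le_of_injective hinj
  rw [Cardinal.mk_set, hcard] at h1
  exact absurd (h1.trans card_borel) (not_le.2 (Cardinal.cantor 𝔠))

end Pool.Agent.X223.NB
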